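import Mathlib

set_option autoImplicit false

namespace Q125.Pref

variable {S₁ S₂ : Type}

/-- The arcs of the preference graph of the two-player game with payoff functions `u₁`, `u₂`:
`p` and `q` differ in the strategy of one player, who strictly prefers `q`. -/
def Arc (u₁ u₂ : S₁ → S₂ → ℝ) (p q : S₁ × S₂) : Prop :=
  (p.2 = q.2 ∧ u₁ p.1 p.2 < u₁ q.1 q.2) ∨ (p.1 = q.1 ∧ u₂ p.1 p.2 < u₂ q.1 q.2)

/-- The game is strict: no ties between comparable profiles. -/
def IsStrict (u₁ u₂ : S₁ → S₂ → ℝ) : Prop :=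
  (∀ s s' t, s ≠ s' → u₁ s t ≠ u₁ s' t) ∧ (∀ s t t', t ≠ t' → u₂ s t ≠ u₂ s t')

/-- For every ordered pair of profiles there is a directed path in the preference graph. -/
def StronglyConnected (u₁ u₂ : S₁ → S₂ → ℝ) : Prop :=
  ∀ p q, Relation.ReflTransGen (Arc u₁ u₂) p q

/-- The preference graph has a directed cycle through four distinct vertices. -/
def HasFourCycle (u₁ u₂ : S₁ → S₂ → ℝ) : Prop :=
  ∃ p q r s : S₁ × S₂, [p, q, r, s].Nodup ∧
    Arc u₁ u₂ p q ∧ Arc u₁ u₂ q r ∧ Arc u₁ u₂ r s ∧ Arc u₁ u₂ s p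

end Q125.Pref
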