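import Mathlib
import Pool.Agent.Q125.Pref.Defs

set_option autoImplicit false

namespace Q125.Pref

variable {S₁ S₂ : Type}

/-- a directed four-cycle gives a cyclic `2 × 2` subgame -/
theorem cyclic_of_fourCycle {u₁ u₂ : S₁ → S₂ → ℝ} (h : HasFourCycle u₁ u₂) :
    ∃ a b c d, u₁ a c < u₁ b c ∧ u₂ b c < u₂ b d ∧ u₁ b d < u₁ a d ∧ u₂ a d < u₂ a c := by
  obtain ⟨⟨p1, p2⟩, ⟨q1, q2⟩, ⟨r1, r2⟩, ⟨s1, s2⟩, hnd, h1, h2, h3, h4⟩ := h
  simp only [Arc] at h1 h2 h3 h4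
  simp only [List.nodup_cons, List.mem_cons, Prod.mk.injEq, List.not_mem_nil, or_false,
    not_or, not_and] at hnd
  obtain ⟨⟨hpq, hpr, hps⟩, ⟨hqr, hqs⟩, hrs, -⟩ := hnd
  rcases h1 with ⟨e1, l1⟩ | ⟨e1, l1⟩ <;> rcases h2 with ⟨e2, l2⟩ | ⟨e2, l2⟩ <;>
    rcases h3 with ⟨e3, l3⟩ | ⟨e3, l3⟩ <;> rcases h4 with ⟨e4, l4⟩ | ⟨e4, l4⟩ <;>
    subst e1 <;> subst e2 <;> (try subst e3) <;> (try subst e4)
  all_goals first
    | exact absurd (l1.trans (l2.trans (l3.trans l4))) (lt_irrefl _)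
    | exact absurd (l1.trans (l2.trans l3)) (lt_irrefl _)
    | exact absurd (l2.trans (l3.trans l4)) (lt_irrefl _)
    | exact absurd l1 (lt_irrefl _)
    | exact absurd l2 (lt_irrefl _)
    | exact absurd l3 (lt_irrefl _)
    | exact absurd l4 (lt_irrefl _)
    | exact absurd rfl (hpr rfl)
    | exact absurd rfl (hqs rfl)
    | exact ⟨_, _, _, _, l1, l2, l3, l4⟩
    | exact ⟨_, _, _, _, l2, l3, l4, l1⟩

/-- arcs for payoffs in the natural numbers -/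
def ArcN (u₁ u₂ : S₁ → S₂ → ℕ) (p q : S₁ × S₂) : Prop :=
  (p.2 = q.2 ∧ u₁ p.1 p.2 < u₁ q.1 q.2) ∨ (p.1 = q.1 ∧ u₂ p.1 p.2 < u₂ q.1 q.2)

instance [DecidableEq S₁] [DecidableEq S₂] (u₁ u₂ : S₁ → S₂ → ℕ) (p q : S₁ × S₂) :
    Decidable (ArcN u₁ u₂ p q) := by
  unfold ArcN
  infer_instance

open Fin.NatCast in
/-- a closed walk through all profiles gives strong connectivity -/
theorem strong_of_walk {L : ℕ} [NeZero L] {A : S₁ × S₂ → S₁ × S₂ → Prop}
    (w : Fin L → S₁ × S₂) (hw : ∀ i, A (w i) (w (i + 1))) (hc : ∀ p, ∃ i, w i = p) :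
    ∀ p q, Relation.ReflTransGen A p q := by
  have key : ∀ (k : ℕ) (i : Fin L), Relation.ReflTransGen A (w i) (w (i + (k : Fin L))) := by
    intro k
    induction k with
    | zero => intro i; simp only [Nat.cast_zero, add_zero]; exact Relation.ReflTransGen.refl
    | succ k ih =>
      intro i
      have h := hw (i + (k : Fin L))
      rw [add_assoc] at h
      rw [Nat.cast_succ]
      exact (ih i).tail h
  intro p q
  obtain ⟨i, rfl⟩ := hc p
  obtain ⟨j, rfl⟩ := hc q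
  have := key (j - i).val i
  rwa [Fin.cast_val_eq_self, add_sub_cancel] at this

section BlowUp

variable {a b : ℕ} (U₁ U₂ : Fin a → Fin b → ℕ) (m n : ℕ)

/-- class of a row -/
def cls {a : ℕ} (ha : 3 ≤ a) {m : ℕ} (i : Fin m) : Fin a := ⟨min i.val (a - 1), by omega⟩

/-- canonical section -/
def sec {a m : ℕ} (ham : a ≤ m) (x : Fin a) : Fin m := ⟨x.val, by omega⟩

theorem cls_sec {a m : ℕ} (ha : 3 ≤ a) (ham : a ≤ m) (x : Fin a) : cls ha (sec ham x) = x := by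
  apply Fin.ext
  simp only [cls, sec]
  omega

/-- a section through two given elements of different classes -/
theorem exists_section {a m : ℕ} (ha : 3 ≤ a) (ham : a ≤ m) (i i' : Fin m)
    (h : cls ha i ≠ cls ha i') :
    ∃ σ : Fin a → Fin m, (∀ x, cls ha (σ x) = x) ∧ σ (cls ha i) = i ∧ σ (cls ha i') = i' := by
  refine ⟨fun x => if x = cls ha i then i else if x = cls ha i' then i' else sec ham x, ?_, ?_, ?_⟩
  · intro x
    simp only
    split_ifs with h1 h2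
    · exact h1.symm
    · exact h2.symm
    · exact cls_sec ha ham x
  · simp
  · simp [h.symm]

/-- an element in a third class -/
theorem exists_third {a m : ℕ} (ha : 3 ≤ a) (ham : a ≤ m) (i i' : Fin m) :
    ∃ j : Fin m, cls ha i ≠ cls ha j ∧ cls ha j ≠ cls ha i' := by
  have : ∃ x : Fin a, cls ha i ≠ x ∧ x ≠ cls ha i' := by
    by_contra hcon
    push Not at hcon
    have h0 := hcon ⟨0, by omega⟩
    have h1 := hcon ⟨1, by omega⟩
    have h2 := hcon ⟨2, by omega⟩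
    simp only [Fin.ext_iff, ne_eq] at h0 h1 h2
    omega
  obtain ⟨x, h1, h2⟩ := this
  exact ⟨sec ham x, by rwa [cls_sec], by rwa [cls_sec]⟩

/-- payoffs of the blow-up -/
def V (U : Fin a → Fin b → ℕ) (ha : 3 ≤ a) (hb : 3 ≤ b) {m n : ℕ} (k : ℕ) (t : ℕ) (i : Fin m)
    (j : Fin n) : ℕ := k * U (cls ha i) (cls hb j) + (k - t)

theorem lt_of_class {k x y s t : ℕ} (ht : t < k) (h : x < y) : k * x + (k - s) < k * y + (k - t) := by
  have : k * x + k ≤ k * y := by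
    calc k * x + k = k * (x + 1) := by ring
      _ ≤ k * y := Nat.mul_le_mul_left k h
  omega

theorem blowUp (ha : 3 ≤ a) (hb : 3 ≤ b) (hm : a ≤ m) (hn : b ≤ n)
    (s1 : ∀ s s' t, s ≠ s' → U₁ s t ≠ U₁ s' t) (s2 : ∀ s t t', t ≠ t' → U₂ s t ≠ U₂ s t')
    (sc : ∀ p q, Relation.ReflTransGen (ArcN U₁ U₂) p q)
    (nc : ∀ x y z w, ¬ (U₁ x z < U₁ y z ∧ U₂ y z < U₂ y w ∧ U₁ y w < U₁ x w ∧ U₂ x w < U₂ x z)) :
    ∃ u₁ u₂ : Fin m → Fin n → ℝ,
      IsStrict u₁ u₂ ∧ StronglyConnected u₁ u₂ ∧ ¬ HasFourCycle u₁ u₂ := by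
  refine ⟨fun i j => ((V U₁ ha hb m i.val i j : ℕ) : ℝ), fun i j => ((V U₂ ha hb n j.val i j : ℕ) : ℝ),
    ⟨?_, ?_⟩, ?_, ?_⟩
  · intro i i' j hne heq
    have heq : V U₁ ha hb m i.val i j = V U₁ ha hb m i'.val i' j := Nat.cast_injective (R := ℝ) heq
    unfold V at heq
    have hv : i.val ≠ i'.val := fun h => hne (Fin.ext h)
    by_cases hc : cls ha i = cls ha i'
    · rw [hc] at heq
      have := i.isLt
      have := i'.isLt
      omega
    · rcases lt_or_gt_of_ne (s1 _ _ (cls hb j) hc) with h | h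
      · have := lt_of_class (s := i.val) i'.isLt h
        omega
      · have := lt_of_class (s := i'.val) i.isLt h
        omega
  · intro i j j' hne heq
    have heq : V U₂ ha hb n j.val i j = V U₂ ha hb n j'.val i j' := Nat.cast_injective (R := ℝ) heq
    unfold V at heq
    have hv : j.val ≠ j'.val := fun h => hne (Fin.ext h)
    by_cases hc : cls hb j = cls hb j'
    · rw [hc] at heq
      have := j.isLt
      have := j'.isLt
      omega
    · rcases lt_or_gt_of_ne (s2 (cls ha i) _ _ hc) with h | h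
      · have := lt_of_class (s := j.val) j'.isLt h
        omega
      · have := lt_of_class (s := j'.val) j.isLt h
        omega
  · have lift : ∀ (σ : Fin a → Fin m) (τ : Fin b → Fin n), (∀ x, cls ha (σ x) = x) →
        (∀ x, cls hb (τ x) = x) → ∀ p q : Fin a × Fin b, ArcN U₁ U₂ p q →
        Arc (fun i j => ((V U₁ ha hb m i.val i j : ℕ) : ℝ))
          (fun i j => ((V U₂ ha hb n j.val i j : ℕ) : ℝ)) (σ p.1, τ p.2) (σ q.1, τ q.2) := by
      intro σ τ hσ hτ p q hpq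
      rcases hpq with ⟨h1, h2⟩ | ⟨h1, h2⟩
      · left
        refine ⟨by simp only [h1], ?_⟩
        simp only [V, hσ, hτ]
        exact_mod_cast lt_of_class (σ q.1).isLt h2
      · right
        refine ⟨by simp only [h1], ?_⟩
        simp only [V, hσ, hτ]
        exact_mod_cast lt_of_class (τ q.2).isLt h2
    have hop : ∀ (i i' : Fin m) (j j' : Fin n), cls ha i ≠ cls ha i' → cls hb j ≠ cls hb j' →
        Relation.ReflTransGen (Arc (fun i j => ((V U₁ ha hb m i.val i j : ℕ) : ℝ))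
          (fun i j => ((V U₂ ha hb n j.val i j : ℕ) : ℝ))) (i, j) (i', j') := by
      intro i i' j j' hi hj
      obtain ⟨σ, hσ, hσi, hσi'⟩ := exists_section ha hm i i' hi
      obtain ⟨τ, hτ, hτj, hτj'⟩ := exists_section hb hn j j' hj
      have h := (sc (cls ha i, cls hb j) (cls ha i', cls hb j')).lift
        (fun p : Fin a × Fin b => (σ p.1, τ p.2)) (lift σ τ hσ hτ)
      have e1 : (σ (cls ha i), τ (cls hb j)) = (i, j) := by rw [hσi, hτj]
      have e2 : (σ (cls ha i'), τ (cls hb j')) = (i', j') := by rw [hσi', hτj']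
      rw [← e1, ← e2]
      exact h
    rintro ⟨i, j⟩ ⟨i', j'⟩
    obtain ⟨i₀, h1, h2⟩ := exists_third ha hm i i'
    obtain ⟨j₀, h3, h4⟩ := exists_third hb hn j j'
    exact (hop i i₀ j j₀ h1 h3).trans (hop i₀ i' j₀ j' h2 h4)
  · intro hfc
    obtain ⟨i, i', j, j', h1, h2, h3, h4⟩ := cyclic_of_fourCycle hfc
    have h1 : V U₁ ha hb m i.val i j < V U₁ ha hb m i'.val i' j := by exact_mod_cast h1
    have h2 : V U₂ ha hb n j.val i' j < V U₂ ha hb n j'.val i' j' := by exact_mod_cast h2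
    have h3 : V U₁ ha hb m i'.val i' j' < V U₁ ha hb m i.val i j' := by exact_mod_cast h3
    have h4 : V U₂ ha hb n j'.val i j' < V U₂ ha hb n j.val i j := by exact_mod_cast h4
    unfold V at h1 h2 h3 h4
    have := i.isLt
    have := i'.isLt
    have := j.isLt
    have := j'.isLt
    have hi : cls ha i ≠ cls ha i' := by
      intro h
      rw [h] at h1 h3
      omega
    have hj : cls hb j ≠ cls hb j' := by
      intro h
      rw [h] at h2 h4
      omega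
    have f : ∀ {x y k s t : ℕ}, t < k → s < k → x ≠ y → k * x + (k - s) < k * y + (k - t) → x < y := by
      intro x y k s t ht hs hxy h
      by_contra hcon
      have := lt_of_class (s := t) hs (lt_of_le_of_ne (not_lt.mp hcon) (Ne.symm hxy))
      omega
    exact nc _ _ _ _ ⟨f i'.isLt i.isLt (s1 _ _ _ hi) h1, f j'.isLt j.isLt (s2 _ _ _ hj) h2,
      f i.isLt i'.isLt (s1 _ _ _ hi.symm) h3, f j.isLt j'.isLt (s2 _ _ _ hj.symm) h4⟩

end BlowUp

/-- the `4 × 5` game -/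
def A₁ : Fin 4 → Fin 5 → ℕ := ![![0, 1, 1, 3, 2], ![1, 2, 2, 0, 3], ![2, 3, 0, 1, 0], ![3, 0, 3, 2, 1]]

def A₂ : Fin 4 → Fin 5 → ℕ := ![![2, 0, 1, 3, 4], ![0, 3, 4, 1, 2], ![4, 2, 3, 0, 1], ![2, 1, 3, 4, 0]]

def wA : Fin 32 → Fin 4 × Fin 5 := ![(0, 0), (0, 4), (1, 4), (1, 2), (3, 2), (3, 3), (0, 3), (0, 4),
  (1, 4), (1, 1), (2, 1), (2, 2), (0, 2), (0, 0), (1, 0), (1, 3), (2, 3), (2, 4), (3, 4), (3, 1),
  (0, 1), (0, 0), (2, 0), (3, 0), (3, 3), (0, 3), (0, 4), (1, 4), (1, 1), (2, 1), (2, 2), (0, 2)]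

/-- the `3 × 8` game -/
def B₁ : Fin 3 → Fin 8 → ℕ := ![![1, 1, 0, 0, 2, 2, 2, 1], ![0, 0, 2, 2, 1, 1, 1, 0],
  ![2, 2, 1, 1, 0, 0, 0, 2]]

def B₂ : Fin 3 → Fin 8 → ℕ := ![![5, 0, 1, 2, 3, 4, 6, 7], ![1, 4, 5, 6, 7, 0, 2, 3],
  ![3, 5, 7, 0, 1, 2, 4, 6]]

def wB : Fin 39 → Fin 3 × Fin 8 := ![(0, 0), (0, 7), (2, 7), (2, 2), (1, 2), (1, 3), (1, 4), (0, 4),
  (0, 5), (0, 6), (0, 7), (2, 7), (2, 2), (1, 2), (1, 4), (0, 4), (0, 0), (2, 0), (2, 1), (2, 2),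
  (1, 2), (1, 4), (0, 4), (0, 0), (2, 0), (2, 6), (1, 6), (1, 1), (0, 1), (0, 2), (0, 3), (2, 3),
  (2, 4), (2, 5), (1, 5), (1, 0), (1, 7), (1, 1), (0, 1)]

theorem gameA (m n : ℕ) (hm : 4 ≤ m) (hn : 5 ≤ n) : ∃ u₁ u₂ : Fin m → Fin n → ℝ,
    IsStrict u₁ u₂ ∧ StronglyConnected u₁ u₂ ∧ ¬ HasFourCycle u₁ u₂ :=
  blowUp A₁ A₂ m n (by norm_num) (by norm_num) hm hn (by decide +kernel) (by decide +kernel)
    (strong_of_walk wA (by decide +kernel) (by decide +kernel)) (by decide +kernel)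

theorem gameB (m n : ℕ) (hm : 3 ≤ m) (hn : 8 ≤ n) : ∃ u₁ u₂ : Fin m → Fin n → ℝ,
    IsStrict u₁ u₂ ∧ StronglyConnected u₁ u₂ ∧ ¬ HasFourCycle u₁ u₂ :=
  blowUp B₁ B₂ m n (by norm_num) (by norm_num) hm hn (by decide +kernel) (by decide +kernel)
    (strong_of_walk wB (by decide +kernel) (by decide +kernel)) (by decide +kernel)

theorem main (m n : ℕ) (h : (4 ≤ m ∧ 5 ≤ n) ∨ (3 ≤ m ∧ 8 ≤ n)) : ∃ u₁ u₂ : Fin m → Fin n → ℝ,
    IsStrict u₁ u₂ ∧ StronglyConnected u₁ u₂ ∧ ¬ HasFourCycle u₁ u₂ := by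
  rcases h with ⟨hm, hn⟩ | ⟨hm, hn⟩
  · exact gameA m n hm hn
  · exact gameB m n hm hn

end Q125.Pref
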